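import Pool.Agent.ID68.Glue

set_option autoImplicit false

namespace Pool.Agent.Results.MP_bd5289_co.InverseDominationGap

open Pool.Agent.ID68

/-- `S` is a dominating set of `G`: every vertex outside `S` has a neighbour in `S`. -/
def Dominating {V : Type} (G : SimpleGraph V) (S : Finset V) : Prop :=
  ∀ v : V, v ∉ S → ∃ u ∈ S, G.Adj u v

/-- The domination number: the minimum size of a dominating set. -/
noncomputable def domNumber {V : Type} (G : SimpleGraph V) : ℕ :=
  sInf {n : ℕ | ∃ S : Finset V, Dominating G S ∧ S.card = n}

/-- The inverse domination number: the minimum size of a dominating set that is disjoint from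
some minimum dominating set `D`. -/
noncomputable def invDomNumber {V : Type} (G : SimpleGraph V) : ℕ :=
  sInf {n : ℕ | ∃ D S : Finset V, Dominating G D ∧ D.card = domNumber G ∧
    Dominating G S ∧ Disjoint S D ∧ S.card = n}

/-- The inverse domination conjecture fails, also for connected graphs, and the difference
between the inverse domination number and the independence number is unbounded: for every
`k ≥ 1` there is a connected graph with `38 k` vertices, domination number `7 k`, independence
number `9 k` and inverse domination number `10 k`. -/
theorem result : ∀ k : ℕ, 1 ≤ k →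
    ∃ (V : Type) (_ : Fintype V) (G : SimpleGraph V), Fintype.card V = 38 * k ∧ G.Connected ∧
      domNumber G = 7 * k ∧ G.indepNum = 9 * k ∧ invDomNumber G = 10 * k := by
  intro k hk
  have hdom : domNumber (GG k) = 7 * k := by
    refine le_antisymm (Nat.sInf_le ⟨copies k setD, copies_dom k _ dom_setD, ?_⟩) ?_
    · rw [card_copies, card_setD]
    · refine le_csInf ⟨_, copies k setD, copies_dom k _ dom_setD, rfl⟩ ?_
      rintro n ⟨S, hS, rfl⟩
      exact le_card_of_slices S (slice_ge hS)
  refine ⟨W k, inferInstance, GG k, ?_, gg_connected hk, hdom, ?_, ?_⟩
  · simp only [Fintype.card_prod, Fintype.card_sum, Fintype.card_fin, Fintype.card_unit]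
    ring
  · refine le_antisymm ?_ ?_
    · obtain ⟨I, hI⟩ := (GG k).exists_isNIndepSet_indepNum
      rw [← hI.card_eq]
      exact card_le_of_slices I (slice_indep hI.isIndepSet)
    · have := (copies_indep k).card_le_indepNum
      rw [card_copies, card_setI] at this
      exact this
  · refine le_antisymm (Nat.sInf_le ⟨copies k setD, copies k setS, copies_dom k _ dom_setD, ?_,
      copies_dom k _ dom_setS, ?_, ?_⟩) ?_
    · rw [card_copies, card_setD, hdom]
    · rw [Finset.disjoint_left]
      intro x hx hx'
      rw [mem_copies] at hx hx'
      obtain ⟨a, _, ha⟩ := Finset.mem_image.1 hx'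
      rw [← ha] at hx
      exact setS_disj a hx
    · rw [card_copies, card_setS]
    · refine le_csInf ⟨_, copies k setD, copies k setS, copies_dom k _ dom_setD, ?_,
        copies_dom k _ dom_setS, ?_, rfl⟩ ?_
      · rw [card_copies, card_setD, hdom]
      · rw [Finset.disjoint_left]
        intro x hx hx'
        rw [mem_copies] at hx hx'
        obtain ⟨a, _, ha⟩ := Finset.mem_image.1 hx'
        rw [← ha] at hx
        exact setS_disj a hx
      · rintro n ⟨D, S, hD, hDc, hS, hdis, rfl⟩
        refine le_card_of_slices S (slice_ten hS ?_)
        intro j a ha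
        exact Finset.disjoint_left.1 hdis ha (all_of_card hD (by rw [hDc, hdom]) j a)

end Pool.Agent.Results.MP_bd5289_co.InverseDominationGap
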